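import Pool.Agent.Helper17.FP.Stmts

set_option autoImplicit false

/-! Module WCH of the project FP: the weights twisted by a character. -/

open Finset

namespace Pool.Agent.Helper17.FP

open Pool.Agent.Helper17.SO Pool.Agent.Helper17.SV

/-- Dirichlet's rearrangement. -/
theorem wch_rearr (F : ℕ → ℕ → ℤ) (R : ℕ) :
    ∑ r ∈ Ioc 0 R, ∑ d ∈ r.divisors, F d (r / d) =
      ∑ b ∈ Ioc 0 R, ∑ a ∈ Ioc 0 (R / b), F b a := by
  rw [Finset.sum_sigma', Finset.sum_sigma']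
  refine Finset.sum_bij' (fun x _ => ⟨x.2, x.1 / x.2⟩) (fun y _ => ⟨y.1 * y.2, y.1⟩) ?_ ?_ ?_ ?_ ?_
  · rintro ⟨r, d⟩ h
    simp only [Finset.mem_sigma, Finset.mem_Ioc, Nat.mem_divisors] at h ⊢
    obtain ⟨⟨h1, h2⟩, h3, h4⟩ := h
    have hd : 0 < d := Nat.pos_of_dvd_of_pos h3 h1
    refine ⟨⟨hd, (Nat.le_of_dvd h1 h3).trans h2⟩, Nat.div_pos (Nat.le_of_dvd h1 h3) hd, ?_⟩
    exact Nat.div_le_div_right h2
  · rintro ⟨b, a⟩ h
    simp only [Finset.mem_sigma, Finset.mem_Ioc, Nat.mem_divisors] at h ⊢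
    obtain ⟨⟨h1, h2⟩, h3, h4⟩ := h
    have h5 : b * a ≤ R := by
      rw [Nat.le_div_iff_mul_le h1] at h4
      rw [mul_comm]; exact h4
    have h6 : 0 < b * a := Nat.mul_pos h1 h3
    exact ⟨⟨h6, h5⟩, Dvd.intro a rfl, h6.ne'⟩
  · rintro ⟨r, d⟩ h
    simp only [Finset.mem_sigma, Finset.mem_Ioc, Nat.mem_divisors] at h
    obtain ⟨⟨h1, h2⟩, h3, h4⟩ := h
    simp only [Nat.mul_div_cancel' h3]
  · rintro ⟨b, a⟩ h
    simp only [Finset.mem_sigma, Finset.mem_Ioc] at h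
    obtain ⟨⟨h1, h2⟩, h3, h4⟩ := h
    simp only [Nat.mul_div_cancel_left a h1]
  · rintro ⟨r, d⟩ h
    rfl

/-- the hyperbola method -/
theorem wch_hyp (F : ℕ → ℕ → ℤ) (R s : ℕ) (hs : R < (s + 1) * (s + 1)) (hs' : s * s ≤ R) :
    ∑ b ∈ Ioc 0 R, ∑ a ∈ Ioc 0 (R / b), F b a =
      ∑ a ∈ Ioc 0 s, ∑ b ∈ Ioc 0 (R / a), F b a +
        ∑ b ∈ Ioc 0 s, ∑ a ∈ Ioc s (R / b), F b a := by
  have h1 : ∀ b ∈ Ioc 0 R, ∑ a ∈ Ioc 0 (R / b), F b a =
      ∑ a ∈ (Ioc 0 (R / b)).filter (fun a => a ≤ s), F b a + ∑ a ∈ Ioc s (R / b), F b a := by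
    intro b _
    rw [← Finset.sum_filter_add_sum_filter_not (Ioc 0 (R / b)) (fun a => a ≤ s)]
    congr 1
    apply Finset.sum_congr _ (fun _ _ => rfl)
    ext a
    simp only [Finset.mem_filter, Finset.mem_Ioc, not_le]
    omega
  rw [Finset.sum_congr rfl h1, Finset.sum_add_distrib]
  congr 1
  · apply Finset.sum_comm'
    intro b a
    simp only [Finset.mem_filter, Finset.mem_Ioc]
    constructor
    · rintro ⟨⟨h2, h3⟩, ⟨h4, h5⟩, h6⟩
      rw [Nat.le_div_iff_mul_le h2] at h5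
      refine ⟨⟨h2, ?_⟩, h4, h6⟩
      rw [Nat.le_div_iff_mul_le h4, mul_comm]
      exact h5
    · rintro ⟨⟨h2, h3⟩, h4, h6⟩
      rw [Nat.le_div_iff_mul_le h4] at h3
      have h7 : b ≤ R := (Nat.le_mul_of_pos_right b h4).trans h3
      refine ⟨⟨h2, h7⟩, ⟨h4, ?_⟩, h6⟩
      rw [Nat.le_div_iff_mul_le h2, mul_comm]
      exact h3
  · symm
    apply Finset.sum_subset
    · intro b hb
      simp only [Finset.mem_Ioc] at hb ⊢
      refine ⟨hb.1, hb.2.trans ?_⟩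
      exact (Nat.le_mul_self s).trans hs'
    · intro b hb hb'
      simp only [Finset.mem_Ioc, not_and, not_le] at hb hb'
      have h2 : s < b := hb' hb.1
      have h3 : R / b ≤ s := by
        have : R / b < s + 1 := by
          rw [Nat.div_lt_iff_lt_mul hb.1]
          exact lt_of_lt_of_le hs (Nat.mul_le_mul_left _ h2)
        omega
      rw [Finset.Ioc_eq_empty (by omega), Finset.sum_empty]

theorem wch_jac (a : ℤ) (b : ℕ) : |jacobiSym a b| ≤ 1 := by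
  rcases jacobiSym.trichotomy a b with h | h | h <;> rw [h] <;> norm_num

theorem wch_chi (lam d : ℕ) : |chi lam d| ≤ 1 := by
  unfold chi
  split_ifs
  · exact wch_jac _ _
  · norm_num

theorem st_WCH (hPER : ST_PER) : ST_WCH := by
  intro lam hlam
  refine ⟨16 * lam + 1, by positivity, ?_⟩
  intro p p' R hp hp' hne hlp hlp'
  obtain ⟨hP1, hP2⟩ := hPER
  have hp2 : p ≠ 2 := by omega
  have hp2' : p' ≠ 2 := by omega
  have hJ := hP1 p p' hp hp' hp2 hp2' hne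
  have hC := (hP2 lam hlam).2 p p' hp hp' hne hlp hlp'
  set s := Nat.sqrt R with hs
  have hs1 : R < (s + 1) * (s + 1) := Nat.lt_succ_sqrt R
  have hs2 : s * s ≤ R := Nat.sqrt_le R
  -- integer identity
  have hid : ∑ r ∈ Ioc 0 R, wt lam r * jacobiSym (r : ℤ) (p * p') =
      ∑ a ∈ Ioc 0 s, jacobiSym (a : ℤ) (p * p') *
        ∑ b ∈ Ioc 0 (R / a), chi lam b * jacobiSym (b : ℤ) (p * p') +
      ∑ b ∈ Ioc 0 s, (chi lam b * jacobiSym (b : ℤ) (p * p')) *
        ∑ a ∈ Ioc s (R / b), jacobiSym (a : ℤ) (p * p') := by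
    have h1 : ∀ r ∈ Ioc 0 R, wt lam r * jacobiSym (r : ℤ) (p * p') =
        ∑ d ∈ r.divisors, (chi lam d * jacobiSym (d : ℤ) (p * p')) *
          jacobiSym ((r / d : ℕ) : ℤ) (p * p') := by
      intro r _
      unfold wt
      rw [Finset.sum_mul]
      apply Finset.sum_congr rfl
      intro d hd
      rw [mul_assoc, ← jacobiSym.mul_left, ← Nat.cast_mul,
        Nat.mul_div_cancel' (Nat.dvd_of_mem_divisors hd)]
    rw [Finset.sum_congr rfl h1,
      wch_rearr (fun d e => (chi lam d * jacobiSym (d : ℤ) (p * p')) *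
        jacobiSym (e : ℤ) (p * p')) R, wch_hyp _ R s hs1 hs2]
    congr 1
    · apply Finset.sum_congr rfl
      intro a _
      rw [Finset.mul_sum]
      apply Finset.sum_congr rfl
      intro b _
      ring
    · apply Finset.sum_congr rfl
      intro b _
      rw [Finset.mul_sum]
  have hb1 : |∑ a ∈ Ioc 0 s, jacobiSym (a : ℤ) (p * p') *
        ∑ b ∈ Ioc 0 (R / a), chi lam b * jacobiSym (b : ℤ) (p * p')| ≤
      s * (16 * lam * (p * p')) := by
    refine (Finset.abs_sum_le_sum_abs _ _).trans ?_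
    have : ∀ a ∈ Ioc 0 s, |jacobiSym (a : ℤ) (p * p') *
        ∑ b ∈ Ioc 0 (R / a), chi lam b * jacobiSym (b : ℤ) (p * p')| ≤
        16 * lam * (p * p') := by
      intro a _
      rw [abs_mul]
      calc |jacobiSym (a : ℤ) (p * p')| *
          |∑ b ∈ Ioc 0 (R / a), chi lam b * jacobiSym (b : ℤ) (p * p')|
          ≤ 1 * (16 * lam * (p * p')) :=
            mul_le_mul (wch_jac _ _) (hC 0 (R / a)) (abs_nonneg _) (by norm_num)
        _ = _ := one_mul _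
    refine (Finset.sum_le_sum this).trans ?_
    rw [Finset.sum_const, Nat.card_Ioc, nsmul_eq_mul]
    simp
  have hb2 : |∑ b ∈ Ioc 0 s, (chi lam b * jacobiSym (b : ℤ) (p * p')) *
        ∑ a ∈ Ioc s (R / b), jacobiSym (a : ℤ) (p * p')| ≤ s * (p * p') := by
    refine (Finset.abs_sum_le_sum_abs _ _).trans ?_
    have : ∀ b ∈ Ioc 0 s, |(chi lam b * jacobiSym (b : ℤ) (p * p')) *
        ∑ a ∈ Ioc s (R / b), jacobiSym (a : ℤ) (p * p')| ≤ (p * p' : ℤ) := by
      intro b _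
      rw [abs_mul, abs_mul]
      have h3 : |chi lam b| * |jacobiSym (b : ℤ) (p * p')| ≤ 1 * 1 :=
        mul_le_mul (wch_chi _ _) (wch_jac _ _) (abs_nonneg _) (by norm_num)
      calc |chi lam b| * |jacobiSym (b : ℤ) (p * p')| *
          |∑ a ∈ Ioc s (R / b), jacobiSym (a : ℤ) (p * p')|
          ≤ (1 * 1) * (p * p' : ℤ) :=
            mul_le_mul h3 (hJ s (R / b)) (abs_nonneg _) (by norm_num)
        _ = _ := by ring
    refine (Finset.sum_le_sum this).trans ?_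
    rw [Finset.sum_const, Nat.card_Ioc, nsmul_eq_mul]
    simp
  have hint : |∑ r ∈ Ioc 0 R, wt lam r * jacobiSym (r : ℤ) (p * p')| ≤
      s * ((16 * lam + 1) * (p * p')) := by
    rw [hid]
    refine (abs_add_le _ _).trans ?_
    refine (add_le_add hb1 hb2).trans (le_of_eq ?_)
    ring
  have hcast : (∑ r ∈ Ioc 0 R, (wt lam r : ℝ) * (jacobiSym (r : ℤ) (p * p') : ℝ)) =
      ((∑ r ∈ Ioc 0 R, wt lam r * jacobiSym (r : ℤ) (p * p') : ℤ) : ℝ) := by
    push_cast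
    rfl
  rw [hcast, ← Int.cast_abs]
  have h4 : ((|∑ r ∈ Ioc 0 R, wt lam r * jacobiSym (r : ℤ) (p * p')| : ℤ) : ℝ) ≤
      ((s * ((16 * lam + 1) * (p * p')) : ℤ) : ℝ) := by exact_mod_cast hint
  refine h4.trans ?_
  push_cast
  have h5 : (s : ℝ) ≤ Real.sqrt R := Real.nat_sqrt_le_real_sqrt
  have h6 : (0 : ℝ) ≤ (16 * lam + 1) * (p * p') := by positivity
  calc (s : ℝ) * ((16 * lam + 1) * (p * p')) ≤ Real.sqrt R * ((16 * lam + 1) * (p * p')) :=
        mul_le_mul_of_nonneg_right h5 h6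
    _ = (16 * lam + 1) * Real.sqrt R * (p * p') := by ring

end Pool.Agent.Helper17.FP
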