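import Pool.Agent.Helper79.FP.FNA

/-! # Module FN -/

set_option autoImplicit false

namespace Pool.Agent.Helper79.FP

open Pool.Agent.Helper44.FP MeasureTheory

universe u

section trace

variable {D : Type u} [CStarAlgebra D] {τ : D →ₗ[ℂ] ℂ}

theorem tau_star (hτ : IsTracialState τ) (a : D) : τ (star a) = (starRingEnd ℂ) (τ a) := by
  have h0 := hτ.nonneg a
  have h1 := hτ.nonneg (1 + a)
  have e1 : star (1 + a) * (1 + a) = 1 + a + star a + star a * a := by
    simp only [star_add, star_one, add_mul, mul_add, one_mul, mul_one]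
    abel
  rw [e1] at h1
  simp only [map_add, Complex.add_im, Complex.add_re, hτ.map_one, Complex.one_im] at h1
  have h2 := hτ.nonneg (1 + Complex.I • a)
  have e2 : star (1 + Complex.I • a) * (1 + Complex.I • a) =
      1 + Complex.I • a - Complex.I • star a + star a * a := by
    simp only [star_add, star_one, star_smul, add_mul, mul_add, one_mul, mul_one,
      smul_mul_assoc, mul_smul_comm, smul_smul, smul_add]
    have h3 : star Complex.I = -Complex.I := Complex.conj_I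
    rw [h3]
    have h4 : -Complex.I * Complex.I = 1 := by
      rw [neg_mul, Complex.I_mul_I, neg_neg]
    have h5 : Complex.I * -Complex.I = 1 := by
      rw [mul_neg, Complex.I_mul_I, neg_neg]
    simp only [h4, h5, one_smul, neg_smul]
    abel
  rw [e2] at h2
  simp only [map_add, map_sub, map_smul, smul_eq_mul, Complex.add_im, Complex.sub_im,
    Complex.mul_im, Complex.I_re, Complex.I_im, hτ.map_one, Complex.one_im] at h2
  apply Complex.ext
  · rw [Complex.conj_re]
    have := h2.2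
    have h3 := h0.2
    linarith
  · rw [Complex.conj_im]
    have := h1.2
    have h3 := h0.2
    linarith

theorem isTr_re (hτ : IsTracialState τ) : IsTr (fun a : D => (τ a).re) where
  add a b := by rw [map_add, Complex.add_re]
  smul r a := by
    have h1 : r • a = (r : ℂ) • a := by
      rw [Complex.coe_smul]
    rw [h1, map_smul, smul_eq_mul, Complex.re_ofReal_mul]
  one := by rw [hτ.map_one, Complex.one_re]
  comm a b := by rw [hτ.comm]
  nonneg a := (hτ.nonneg a).1
  star_eq a := by rw [tau_star hτ, Complex.conj_re]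

end trace

section circle

/-- the function `exp (2 π i x)` on the unit interval -/
noncomputable def ee : C(unitInterval, ℂ) :=
  ⟨fun x => Complex.exp (2 * Real.pi * Complex.I * (x : ℝ)), by fun_prop⟩

theorem ee_unit : star ee * ee = 1 := by
  ext x
  change (starRingEnd ℂ) (Complex.exp (2 * Real.pi * Complex.I * (x : ℝ))) *
    Complex.exp (2 * Real.pi * Complex.I * (x : ℝ)) = 1
  rw [← Complex.exp_conj, ← Complex.exp_add]
  have h1 : (starRingEnd ℂ) (2 * Real.pi * Complex.I * (x : ℝ)) +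
      2 * Real.pi * Complex.I * (x : ℝ) = 0 := by
    simp only [map_mul, Complex.conj_ofReal, Complex.conj_I, map_ofNat]
    ring
  rw [h1, Complex.exp_zero]

theorem ee_int : ∫ x, ee x = 0 := by
  have h1 : ∫ x, ee x = ∫ x in Set.Icc (0 : ℝ) 1,
      Complex.exp (2 * Real.pi * Complex.I * (x : ℝ)) := by
    exact integral_subtype_comap measurableSet_Icc
      (fun x : ℝ => Complex.exp (2 * Real.pi * Complex.I * (x : ℝ)))
  rw [h1, integral_Icc_eq_integral_Ioc, ← intervalIntegral.integral_of_le zero_le_one]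
  have hc : (2 * Real.pi * Complex.I : ℂ) ≠ 0 := Complex.two_pi_I_ne_zero
  rw [integral_exp_mul_complex hc]
  simp [Complex.exp_two_pi_mul_I]

end circle

section alg

variable {D : Type u} [CStarAlgebra D] {τ : D →ₗ[ℂ] ℂ}
  {ι : ℕ → (C(unitInterval, ℂ) →⋆ₐ[ℂ] D)}

theorem word_mem (S : Set ℕ) {c : D} (hc : c ∈ Submodule.span ℂ (wordSet ι Set.univ)) :
    ∃ a₀ ∈ V0 ι S, ∃ a₁ ∈ V1 ι S, c = a₀ + a₁ := by
  classical
  have h1 : c ∈ V0 ι S ⊔ V1 ι S := by
    refine Submodule.span_le.mpr ?_ hc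
    rintro _ ⟨C, hne, hch, hC, rfl⟩
    have hW : Wd C := ⟨hch, fun a ha => (hC a ha).2⟩
    cases C with
    | nil => exact absurd rfl hne
    | cons a C =>
      by_cases ha : a.1 ∈ S
      · apply Submodule.mem_sup_right
        apply Submodule.subset_span
        refine ⟨a :: C, hW, hne, ?_, rfl⟩
        intro b hb
        have : a = b := by simpa using hb
        rw [← this]
        exact ha
      · apply Submodule.mem_sup_left
        apply Submodule.subset_span
        refine ⟨a :: C, hW, ?_, rfl⟩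
        intro b hb
        have : a = b := by simpa using hb
        rw [← this]
        exact ha
  obtain ⟨a, ha, b, hb, e⟩ := Submodule.mem_sup.mp h1
  exact ⟨a, ha, b, hb, e.symm⟩

theorem one_mem_V0 (S : Set ℕ) : (1 : D) ∈ V0 ι S := by
  apply Submodule.subset_span
  refine ⟨[], ⟨List.IsChain.nil, ?_⟩, ?_, rfl⟩
  · intro a ha
    exact absurd ha (by simp)
  · intro a ha
    exact absurd ha (by simp)

/-- decomposition of the elements of the algebra generated by the copies -/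
theorem decomp (hFW : ST_FW.{u}) (S : Set ℕ) {x : D}
    (hx : x ∈ StarAlgebra.adjoin ℂ (⋃ k, Set.range (ι k))) :
    ∃ a₀ ∈ V0 ι S, ∃ a₁ ∈ V1 ι S, x = a₀ + a₁ := by
  obtain ⟨c, y, hy, rfl⟩ := hFW D ι Set.univ x (by simpa using hx)
  obtain ⟨a₀, h₀, a₁, h₁, rfl⟩ := word_mem S hy
  exact ⟨c • 1 + a₀, Submodule.add_mem _ (Submodule.smul_mem _ _ (one_mem_V0 S)) h₀, a₁, h₁,
    by rw [add_assoc]⟩

theorem tau_wordSet (hF : IsFreePower D τ ι) (S : Set ℕ) {y : D}
    (hy : y ∈ Submodule.span ℂ (wordSet ι S)) : τ y = 0 := by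
  induction hy using Submodule.span_induction with
  | mem x hx =>
    obtain ⟨C, hne, hch, hC, rfl⟩ := hx
    exact hF.free C hne hch (fun a ha => (hC a ha).2)
  | zero => exact map_zero τ
  | add x y _ _ hx hy => rw [map_add, hx, hy, add_zero]
  | smul c x _ hx => rw [map_smul, hx, smul_zero]

/-- elements of the algebra of the copies in `S` are scalars plus words -/
theorem decompS (hFW : ST_FW.{u}) (hF : IsFreePower D τ ι) (S : Set ℕ) {x : D}
    (hx : x ∈ StarAlgebra.adjoin ℂ (⋃ k ∈ S, Set.range (ι k))) :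
    ∃ y ∈ Submodule.span ℂ (wordSet ι S), x = τ x • (1 : D) + y := by
  obtain ⟨c, y, hy, rfl⟩ := hFW D ι S x hx
  refine ⟨y, hy, ?_⟩
  rw [map_add, map_smul, hF.tracial.map_one, tau_wordSet hF S hy, smul_eq_mul, mul_one, add_zero]

/-- `P` acts on `V0` as a multiple of an isometry for the 2-norm -/
theorem n2_P_V0 (hFW : ST_FW.{u}) (hF : IsFreePower D τ ι) {S : Set ℕ} {P : D}
    (hP : IsSelfAdjoint P) (hPS : P ∈ StarAlgebra.adjoin ℂ (⋃ k ∈ S, Set.range (ι k)))
    {v : D} (hv : v ∈ V0 ι S) :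
    n2 (fun a : D => (τ a).re) (P * v) =
      n2 (fun a : D => (τ a).re) P * n2 (fun a : D => (τ a).re) v := by
  obtain ⟨y, hy, e⟩ := decompS hFW hF S (mul_mem hPS hPS)
  have h1 : star (P * v) * (P * v) = star v * (P * P) * v := by
    rw [star_mul, hP.star_eq]
    simp only [mul_assoc]
  have h2 : τ (star v * (P * P) * v) = τ (P * P) * τ (star v * v) := by
    rw [e, mul_add, add_mul, map_add, mid hF hv hv hy, add_zero, mul_smul_comm, mul_one,
      smul_mul_assoc, map_smul, smul_eq_mul, map_add, map_smul, hF.tracial.map_one,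
      tau_wordSet hF S hy, smul_eq_mul, mul_one, add_zero]
  have h3 : (τ (star v * v)).im = 0 := (hF.tracial.nonneg v).2
  have h4 : (τ (star (P * v) * (P * v))).re = (τ (star P * P)).re * (τ (star v * v)).re := by
    rw [h1, h2, Complex.mul_re, h3, mul_zero, sub_zero, hP.star_eq]
  unfold n2
  change √((τ (star (P * v) * (P * v))).re) = √((τ (star P * P)).re) * √((τ (star v * v)).re)
  rw [h4, Real.sqrt_mul (hF.tracial.nonneg P).1]

/-- the component of `P y` in `V0` is small -/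
theorem comp_small (hFW : ST_FW.{u}) (hF : IsFreePower D τ ι) {S : Set ℕ} {P : D}
    (hP : IsSelfAdjoint P) (hPS : P ∈ StarAlgebra.adjoin ℂ (⋃ k ∈ S, Set.range (ι k)))
    {y a₀ a₁ : D} (h₀ : a₀ ∈ V0 ι S) (h₁ : a₁ ∈ V1 ι S) (e : P * y = a₀ + a₁) :
    n2 (fun a : D => (τ a).re) a₀ ≤
      n2 (fun a : D => (τ a).re) P * n2 (fun a : D => (τ a).re) y ∧
    n2 (fun a : D => (τ a).re) a₁ ≤ n2 (fun a : D => (τ a).re) (P * y) := by
  have ht := isTr_re hF.tracial
  have hor : (τ (star a₀ * a₁)).re = 0 := by rw [orth hF h₀ h₁, Complex.zero_re]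
  have hor' : (τ (star a₁ * a₀)).re = 0 := by
    have h1 := ht.star_eq (star a₀ * a₁)
    rw [star_mul, star_star] at h1
    change (τ (star a₁ * a₀)).re = (τ (star a₀ * a₁)).re at h1
    rw [h1, hor]
  constructor
  · have h1 : n2 (fun a : D => (τ a).re) a₀ ^ 2 = (τ (star (P * a₀) * y)).re := by
      rw [ht.n2_sq]
      change (τ (star a₀ * a₀)).re = _
      have h2 : star (P * a₀) * y = star a₀ * (P * y) := by
        rw [star_mul, hP.star_eq, mul_assoc]
      rw [h2, e, mul_add, map_add, Complex.add_re, hor, add_zero]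
    have h2 := (abs_le.mp (ht.abs_le_n2 (P * a₀) y)).2
    rw [n2_P_V0 hFW hF hP hPS h₀] at h2
    change (τ (star (P * a₀) * y)).re ≤ _ at h2
    rw [← h1] at h2
    by_cases h3 : n2 (fun a : D => (τ a).re) a₀ = 0
    · rw [h3]
      exact mul_nonneg (n2_nonneg _ _) (n2_nonneg _ _)
    · have h4 : 0 < n2 (fun a : D => (τ a).re) a₀ := lt_of_le_of_ne (n2_nonneg _ _) (Ne.symm h3)
      by_contra hcon
      push Not at hcon
      have h5 := mul_lt_mul_of_pos_left hcon h4
      nlinarith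
  · have h1 : n2 (fun a : D => (τ a).re) a₁ ^ 2 ≤ n2 (fun a : D => (τ a).re) (P * y) ^ 2 := by
      rw [ht.n2_sq, ht.n2_sq, e]
      change (τ (star a₁ * a₁)).re ≤ (τ (star (a₀ + a₁) * (a₀ + a₁))).re
      have h2 : star (a₀ + a₁) * (a₀ + a₁) =
          star a₀ * a₀ + star a₀ * a₁ + star a₁ * a₀ + star a₁ * a₁ := by
        simp only [star_add, add_mul, mul_add]
        abel
      rw [h2]
      simp only [map_add, Complex.add_re]
      have h3 := (hF.tracial.nonneg a₀).1
      linarith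
    exact le_of_sq_le_sq h1 (n2_nonneg _ _)

/-- the finite support of elements of the generated algebra -/
theorem fin_supp {x : D} (hx : x ∈ StarAlgebra.adjoin ℂ (⋃ k, Set.range (ι k))) :
    ∃ N : ℕ, x ∈ StarAlgebra.adjoin ℂ (⋃ k ∈ {k : ℕ | k < N}, Set.range (ι k)) := by
  have hmono : ∀ {N M : ℕ}, N ≤ M →
      StarAlgebra.adjoin ℂ (⋃ k ∈ {k : ℕ | k < N}, Set.range (ι k)) ≤
      StarAlgebra.adjoin ℂ (⋃ k ∈ {k : ℕ | k < M}, Set.range (ι k)) := by
    intro N M h
    apply StarAlgebra.adjoin_mono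
    apply Set.biUnion_subset_biUnion_left
    intro k hk
    exact lt_of_lt_of_le hk h
  induction hx using StarAlgebra.adjoin_induction with
  | mem x hx =>
    obtain ⟨k, hk⟩ := Set.mem_iUnion.mp hx
    refine ⟨k + 1, StarAlgebra.subset_adjoin ℂ _ ?_⟩
    exact Set.mem_biUnion (show k ∈ {j : ℕ | j < k + 1} from Nat.lt_succ_self k) hk
  | algebraMap r => exact ⟨0, StarSubalgebra.algebraMap_mem _ r⟩
  | add x y _ _ hx hy =>
    obtain ⟨N, hN⟩ := hx
    obtain ⟨M, hM⟩ := hy
    exact ⟨max N M, add_mem (hmono (le_max_left _ _) hN) (hmono (le_max_right _ _) hM)⟩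
  | mul x y _ _ hx hy =>
    obtain ⟨N, hN⟩ := hx
    obtain ⟨M, hM⟩ := hy
    exact ⟨max N M, mul_mem (hmono (le_max_left _ _) hN) (hmono (le_max_right _ _) hM)⟩
  | star x _ hx =>
    obtain ⟨N, hN⟩ := hx
    exact ⟨N, star_mem hN⟩

/-- approximation of self-adjoint elements -/
theorem approx (hF : IsFreePower D τ ι) {P : D} (hP : IsSelfAdjoint P) {δ : ℝ} (hδ : 0 < δ) :
    ∃ (N : ℕ) (P' : D), IsSelfAdjoint P' ∧ ‖P - P'‖ ≤ δ ∧ ∀ M, N ≤ M →
      P' ∈ StarAlgebra.adjoin ℂ (⋃ k ∈ {k : ℕ | k < M}, Set.range (ι k)) := by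
  obtain ⟨x, hx, hd⟩ := hF.generates.exists_dist_lt P hδ
  rw [dist_eq_norm] at hd
  obtain ⟨N, hN⟩ := fin_supp hx
  refine ⟨N, (2⁻¹ : ℝ) • (x + star x), ?_, ?_, ?_⟩
  · rw [isSelfAdjoint_iff, star_smul, star_add, star_star, star_trivial, add_comm]
  · have h1 : P - (2⁻¹ : ℝ) • (x + star x) = (2⁻¹ : ℝ) • ((P - x) + star (P - x)) := by
      rw [star_sub, hP.star_eq]
      have h2 : P = (2⁻¹ : ℝ) • (P + P) := by
        rw [← two_smul ℝ P, smul_smul]
        norm_num
      nth_rewrite 1 [h2]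
      rw [← smul_sub]
      congr 1
      abel
    rw [h1, norm_smul]
    have h3 := norm_add_le (P - x) (star (P - x))
    rw [norm_star] at h3
    have h4 : ‖(2⁻¹ : ℝ)‖ = 2⁻¹ := by norm_num
    rw [h4]
    linarith
  · intro M hM
    have hmono : StarAlgebra.adjoin ℂ (⋃ k ∈ {k : ℕ | k < N}, Set.range (ι k)) ≤
        StarAlgebra.adjoin ℂ (⋃ k ∈ {k : ℕ | k < M}, Set.range (ι k)) := by
      apply StarAlgebra.adjoin_mono
      apply Set.biUnion_subset_biUnion_left
      intro k hk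
      exact lt_of_lt_of_le hk hM
    have h1 : (2⁻¹ : ℝ) • (x + star x) = ((2⁻¹ : ℝ) : ℂ) • (x + star x) := by
      rw [Complex.coe_smul]
    rw [h1]
    exact SMulMemClass.smul_mem _ (add_mem (hmono hN) (star_mem (hmono hN)))

theorem tau_real (hF : IsFreePower D τ ι) {Q : D} (hQ : IsSelfAdjoint Q) :
    τ Q = ((τ Q).re : ℂ) := by
  have h1 := tau_star hF.tracial Q
  rw [hQ.star_eq] at h1
  exact (Complex.conj_eq_iff_re.mp h1.symm).symm

theorem main_est (hFW : ST_FW.{u}) (hF : IsFreePower D τ ι) {S : Set ℕ} {N : ℕ} (hN : N ∉ S)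
    {P Q : D} (hP : IsSelfAdjoint P) (hQ : IsSelfAdjoint Q)
    (hPS : P ∈ StarAlgebra.adjoin ℂ (⋃ k ∈ S, Set.range (ι k)))
    (hQS : Q ∈ StarAlgebra.adjoin ℂ (⋃ k ∈ S, Set.range (ι k)))
    [PartialOrder D] [StarOrderedRing D] {z : D}
    (hz : z = ι N ee * (Q - (τ Q).re • (1 : D)) * star (ι N ee)) {y y' : D}
    (hy : y ∈ StarAlgebra.adjoin ℂ (⋃ k, Set.range (ι k)))
    (hy' : y' ∈ StarAlgebra.adjoin ℂ (⋃ k, Set.range (ι k))) :
    (τ (star y' * (P * z * P) * y)).re ≤
      (2 * n2 (fun a : D => (τ a).re) P * (‖z‖ * ‖P‖)) *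
        n2 (fun a : D => (τ a).re) y * n2 (fun a : D => (τ a).re) y' := by
  have ht := isTr_re hF.tracial
  have hsub : StarAlgebra.adjoin ℂ (⋃ k ∈ S, Set.range (ι k)) ≤
      StarAlgebra.adjoin ℂ (⋃ k, Set.range (ι k)) := by
    apply StarAlgebra.adjoin_mono
    exact Set.iUnion₂_subset fun k _ => Set.subset_iUnion (fun k => Set.range (ι k)) k
  obtain ⟨a₀, ha₀, a₁, ha₁, ea⟩ := decomp hFW S (mul_mem (hsub hPS) hy)
  obtain ⟨b₀, hb₀, b₁, hb₁, eb⟩ := decomp hFW S (mul_mem (hsub hPS) hy')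
  obtain ⟨sa0, sa1⟩ := comp_small hFW hF hP hPS ha₀ ha₁ ea
  obtain ⟨sb0, sb1⟩ := comp_small hFW hF hP hPS hb₀ hb₁ eb
  have hPy := ht.n2_mul_le P y
  have hPy' := ht.n2_mul_le P y'
  -- `z a₁ ∈ V0`
  have hza : z * a₁ ∈ V0 ι S := by
    obtain ⟨q, hq, eq⟩ := decompS hFW hF S hQS
    have h1 : Q - (τ Q).re • (1 : D) = q := by
      have h2 : (τ Q).re • (1 : D) = τ Q • (1 : D) := by
        rw [← Complex.coe_smul, ← tau_real hF hQ]
      rw [h2]
      nth_rewrite 1 [eq]
      abel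
    rw [hz, h1, ← map_star]
    exact shift_V1 hN ee_int (integral_star_zero ee_int) hq ha₁
  have e1 : star y' * (P * z * P) * y =
      star b₀ * (z * (P * y)) + star b₁ * (z * a₀) + star b₁ * (z * a₁) := by
    have h1 : star y' * (P * z * P) * y = star (P * y') * (z * (P * y)) := by
      rw [star_mul, hP.star_eq]
      simp only [mul_assoc]
    rw [h1, eb, star_add, add_mul, add_assoc, ← mul_add, ← mul_add, ← ea]
  have t3 : (τ (star b₁ * (z * a₁))).re = 0 := by
    have h1 := ht.star_eq (star (z * a₁) * b₁)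
    rw [star_mul, star_star] at h1
    change (τ (star b₁ * (z * a₁))).re = (τ (star (z * a₁) * b₁)).re at h1
    rw [h1, orth hF hza hb₁, Complex.zero_re]
  have t1 := (abs_le.mp (ht.abs_le_n2 b₀ (z * (P * y)))).2
  have t2 := (abs_le.mp (ht.abs_le_n2 b₁ (z * a₀))).2
  change (τ (star b₀ * (z * (P * y)))).re ≤ _ at t1
  change (τ (star b₁ * (z * a₀))).re ≤ _ at t2
  have u1 := ht.n2_mul_le z (P * y)
  have u2 := ht.n2_mul_le z a₀
  rw [e1, map_add, map_add, Complex.add_re, Complex.add_re, t3, add_zero]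
  set n := n2 (fun a : D => (τ a).re) with hn
  have hnn : ∀ a, 0 ≤ n a := fun a => n2_nonneg _ a
  have w1 : n b₀ * n (z * (P * y)) ≤ (n P * n y') * (‖z‖ * (‖P‖ * n y)) := by
    apply mul_le_mul sb0 _ (hnn _) (mul_nonneg (hnn _) (hnn _))
    exact u1.trans (mul_le_mul_of_nonneg_left hPy (norm_nonneg z))
  have w2 : n b₁ * n (z * a₀) ≤ (‖P‖ * n y') * (‖z‖ * (n P * n y)) := by
    apply mul_le_mul (sb1.trans hPy') _ (hnn _) (mul_nonneg (norm_nonneg _) (hnn _))
    exact u2.trans (mul_le_mul_of_nonneg_left sa0 (norm_nonneg z))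
  have e2 : (2 * n P * (‖z‖ * ‖P‖)) * n y * n y' =
      (n P * n y') * (‖z‖ * (‖P‖ * n y)) + (‖P‖ * n y') * (‖z‖ * (n P * n y)) := by ring
  rw [e2]
  linarith

theorem faithful (hF : IsFreePower D τ ι) (a : D) (h : (τ (star a * a)).re = 0) : a = 0 := by
  have ht := isTr_re hF.tracial
  apply hF.gns_faithful
  intro b c
  have hre : ∀ x : D, (τ (x * a)).re = 0 := by
    intro x
    have h1 := ht.abs_mul_le x a
    have h2 : n2 (fun a : D => (τ a).re) a = 0 := by
      unfold n2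
      change √((τ (star a * a)).re) = 0
      rw [h, Real.sqrt_zero]
    rw [h2, mul_zero] at h1
    exact abs_eq_zero.mp (le_antisymm h1 (abs_nonneg _))
  have hz : ∀ x : D, τ (x * a) = 0 := by
    intro x
    apply Complex.ext
    · rw [hre x, Complex.zero_re]
    · have h1 := hre (Complex.I • x)
      rw [smul_mul_assoc, map_smul, smul_eq_mul, Complex.mul_re, Complex.I_re, Complex.I_im,
        zero_mul, one_mul, zero_sub, neg_eq_zero] at h1
      rw [h1, Complex.zero_im]
  rw [hF.tracial.comm (b * a) c, ← mul_assoc]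
  exact hz (c * b)

theorem step1 (hFW : ST_FW.{u}) (hG : ST_GNSN.{u}) (hF : IsFreePower D τ ι) {S : Set ℕ} {N : ℕ}
    (hN : N ∉ S) {P Q : D} (hP : IsSelfAdjoint P) (hQ : IsSelfAdjoint Q)
    (hPS : P ∈ StarAlgebra.adjoin ℂ (⋃ k ∈ S, Set.range (ι k)))
    (hQS : Q ∈ StarAlgebra.adjoin ℂ (⋃ k ∈ S, Set.range (ι k)))
    [PartialOrder D] [StarOrderedRing D] {z : D}
    (hz : z = ι N ee * (Q - (τ Q).re • (1 : D)) * star (ι N ee)) :
    ‖P * z * P‖ ≤ 2 * n2 (fun a : D => (τ a).re) P * (‖z‖ * ‖P‖) := by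
  apply hG D (fun a : D => (τ a).re) (isTr_re hF.tracial) (faithful hF) _ hF.generates
  · exact mul_nonneg (mul_nonneg zero_le_two (n2_nonneg _ _))
      (mul_nonneg (norm_nonneg _) (norm_nonneg _))
  · intro y hy y' hy'
    exact main_est hFW hF hN hP hQ hPS hQS hz hy hy'

theorem ee_unitary (N : ℕ) : ι N ee ∈ unitary D := by
  have h1 : star (ι N ee) * ι N ee = 1 := by
    rw [← map_star, ← map_mul, ee_unit, map_one]
  have h2 : ι N ee * star (ι N ee) = 1 := by
    rw [← map_star, ← map_mul, mul_comm, ee_unit, map_one]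
  exact ⟨h1, h2⟩

end alg

theorem FN_aux (hFW : ST_FW.{u}) (hG : ST_GNSN.{u}) : ST_FN.{u} := by
  intro D _ _ _ τ ι hF P Q hP hQ hP1 hQ1 κ hκ
  have ht := isTr_re hF.tracial
  obtain ⟨δ, hδ⟩ : ∃ δ : ℝ, δ = min (1 / 4) (κ / 22) := ⟨_, rfl⟩
  have hδ0 : 0 < δ := by
    rw [hδ]
    exact lt_min (by norm_num) (by positivity)
  have hδ1 : δ ≤ 1 / 4 := by rw [hδ]; exact min_le_left _ _
  have hδ2 : 22 * δ ≤ κ := by
    have : δ ≤ κ / 22 := by rw [hδ]; exact min_le_right _ _
    linarith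
  obtain ⟨N₁, P', hP', hPd, hPm⟩ := approx hF hP hδ0
  obtain ⟨N₂, Q', hQ', hQd, hQm⟩ := approx hF hQ hδ0
  obtain ⟨N, hN⟩ : ∃ N, N = max N₁ N₂ := ⟨_, rfl⟩
  have hNS : N ∉ {k : ℕ | k < N} := fun h => lt_irrefl N h
  obtain ⟨w, hw⟩ : ∃ w : D, w = ι N ee := ⟨_, rfl⟩
  have hwu : w ∈ unitary D := by rw [hw]; exact ee_unitary N
  refine ⟨w, hwu, ?_⟩
  obtain ⟨z', hz'⟩ : ∃ z' : D, z' = w * (Q' - (τ Q').re • (1 : D)) * star w := ⟨_, rfl⟩
  have hstep := step1 hFW hG hF hNS hP' hQ' (hPm N (by rw [hN]; exact le_max_left _ _))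
    (hQm N (by rw [hN]; exact le_max_right _ _)) (z := z') (by rw [hz', hw])
  -- norms
  have nw : ‖w‖ ≤ 1 := by
    have h1 := CStarRing.norm_star_mul_self (x := w)
    rw [Unitary.star_mul_self_of_mem hwu] at h1
    have h2 : ‖(1 : D)‖ ≤ 1 := by
      rcases subsingleton_or_nontrivial D with h | h
      · rw [Subsingleton.elim (1 : D) 0, norm_zero]
        exact zero_le_one
      · rw [CStarRing.norm_one]
    nlinarith [norm_nonneg w]
  have none : ‖(1 : D)‖ ≤ 1 := by
    rcases subsingleton_or_nontrivial D with h | h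
    · rw [Subsingleton.elim (1 : D) 0, norm_zero]
      exact zero_le_one
    · rw [CStarRing.norm_one]
  have nconj : ∀ a : D, ‖w * a * star w‖ ≤ ‖a‖ := by
    intro a
    have h1 := norm_mul_le (w * a) (star w)
    have h2 := norm_mul_le w a
    rw [norm_star] at h1
    nlinarith [norm_nonneg w, norm_nonneg a, norm_nonneg (w * a)]
  have hww : w * star w = 1 := Unitary.mul_star_self_of_mem hwu
  obtain ⟨z, hz⟩ : ∃ z : D, z = w * Q * star w - (τ Q).re • (1 : D) := ⟨_, rfl⟩
  have hz2 : z = w * (Q - (τ Q).re • (1 : D)) * star w := by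
    rw [hz, mul_sub, sub_mul, mul_smul_comm, mul_one, smul_mul_assoc, hww]
  have hcen : ∀ R : D, ‖R - (τ R).re • (1 : D)‖ ≤ 2 * ‖R‖ := by
    intro R
    have h1 := norm_sub_le R ((τ R).re • (1 : D))
    have h2 : ‖(τ R).re • (1 : D)‖ ≤ ‖R‖ := by
      rw [norm_smul]
      have h3 := ht.abs_le_norm R
      change |(τ R).re| ≤ ‖R‖ at h3
      rw [Real.norm_eq_abs]
      nlinarith [abs_nonneg (τ R).re, norm_nonneg (1 : D)]
    linarith
  have nz : ‖z‖ ≤ 2 := by
    rw [hz2]
    refine (nconj _).trans ((hcen Q).trans ?_)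
    linarith
  have nP' : ‖P'‖ ≤ 1 + δ := by
    have h1 : P' = P - (P - P') := by abel
    rw [h1]
    exact (norm_sub_le _ _).trans (add_le_add hP1 hPd)
  have nQ' : ‖Q'‖ ≤ 1 + δ := by
    have h1 : Q' = Q - (Q - Q') := by abel
    rw [h1]
    exact (norm_sub_le _ _).trans (add_le_add hQ1 hQd)
  have nz' : ‖z'‖ ≤ 2 * (1 + δ) := by
    rw [hz']
    refine (nconj _).trans ((hcen Q').trans ?_)
    linarith
  have nzz : ‖z - z'‖ ≤ 2 * δ := by
    have h1 : z - z' = w * ((Q - Q') - (τ (Q - Q')).re • (1 : D)) * star w := by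
      rw [hz2, hz', map_sub, Complex.sub_re, sub_smul]
      rw [← sub_mul, ← mul_sub]
      congr 2
      abel
    rw [h1]
    refine (nconj _).trans ((hcen _).trans ?_)
    linarith
  have n2P : n2 (fun a : D => (τ a).re) P' ≤ n2 (fun a : D => (τ a).re) P + δ := by
    have h1 : P' = P - (P - P') := by abel
    rw [h1]
    refine (ht.n2_sub_le _ _).trans (add_le_add le_rfl ((ht.n2_le_norm _).trans hPd))
  have hn2 : n2 (fun a : D => (τ a).re) P = √((τ (P * P)).re) := by
    unfold n2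
    rw [hP.star_eq]
  rw [← hz, ← hn2]
  have hdec : P * z * P = P' * z' * P' + ((P - P') * z * P + P' * (z - z') * P +
      P' * z' * (P - P')) := by
    simp only [sub_mul, mul_sub, mul_assoc]
    abel
  have hn0 : 0 ≤ n2 (fun a : D => (τ a).re) P := n2_nonneg _ _
  have b1 : ‖(P - P') * z * P‖ ≤ δ * 2 * 1 := by
    refine (norm_mul_le _ _).trans (mul_le_mul ?_ hP1 (norm_nonneg _) (by positivity))
    exact (norm_mul_le _ _).trans (mul_le_mul hPd nz (norm_nonneg _) hδ0.le)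
  have b2 : ‖P' * (z - z') * P‖ ≤ (1 + δ) * (2 * δ) * 1 := by
    refine (norm_mul_le _ _).trans (mul_le_mul ?_ hP1 (norm_nonneg _) (by positivity))
    exact (norm_mul_le _ _).trans (mul_le_mul nP' nzz (norm_nonneg _) (by positivity))
  have b3 : ‖P' * z' * (P - P')‖ ≤ (1 + δ) * (2 * (1 + δ)) * δ := by
    refine (norm_mul_le _ _).trans (mul_le_mul ?_ hPd (norm_nonneg _) (by positivity))
    exact (norm_mul_le _ _).trans (mul_le_mul nP' nz' (norm_nonneg _) (by positivity))
  have b4 : ‖P' * z' * P'‖ ≤ 2 * (n2 (fun a : D => (τ a).re) P + δ) *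
      ((2 * (1 + δ)) * (1 + δ)) := by
    refine hstep.trans (mul_le_mul (by linarith) (mul_le_mul nz' nP' (norm_nonneg _)
      (by positivity)) (mul_nonneg (norm_nonneg _) (norm_nonneg _)) (by positivity))
  have b5 : ‖P * z * P‖ ≤ ‖P' * z' * P'‖ + (‖(P - P') * z * P‖ + ‖P' * (z - z') * P‖ +
      ‖P' * z' * (P - P')‖) := by
    rw [hdec]
    refine (norm_add_le _ _).trans (add_le_add le_rfl ?_)
    exact (norm_add_le _ _).trans (add_le_add (norm_add_le _ _) le_rfl)
  have c1 : (1 + δ) * (1 + δ) ≤ 2 := by nlinarith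
  have c2 : 2 * (n2 (fun a : D => (τ a).re) P + δ) * ((2 * (1 + δ)) * (1 + δ)) ≤
      8 * n2 (fun a : D => (τ a).re) P + 8 * δ := by
    nlinarith
  nlinarith

end Pool.Agent.Helper79.FP
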