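import Pool.Agent.Helper44.FP.Stmts2
import Pool.Agent.Helper44.FP.Lib

/-! # Module GNSN -/

set_option autoImplicit false

namespace Pool.Agent.Helper79.FP

open Pool.Agent.Helper44.FP

universe u

theorem GNSN_proof : ST_GNSN.{u} := by
  intro A _ _ _ t ht hfaith S hS x M hM hest
  -- continuity
  have hlip : ∀ a b : A, |t a - t b| ≤ ‖a - b‖ := by
    intro a b
    rw [← ht.sub]
    exact ht.abs_le_norm _
  have htc : Continuous t := by
    rw [Metric.continuous_iff]
    intro b ε hε
    refine ⟨ε, hε, fun a ha => ?_⟩
    rw [Real.dist_eq]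
    rw [dist_eq_norm] at ha
    exact lt_of_le_of_lt (hlip a b) ha
  have hn2c : Continuous (fun y : A => √(t (star y * y))) :=
    Real.continuous_sqrt.comp (htc.comp (continuous_star.mul continuous_id))
  have hall : ∀ y z : A, t (star z * x * y) ≤ M * √(t (star y * y)) * √(t (star z * z)) := by
    have h1 : ∀ y ∈ S, ∀ z : A,
        t (star z * x * y) ≤ M * √(t (star y * y)) * √(t (star z * z)) := by
      intro y hy
      have hc : IsClosed {z : A |
          t (star z * x * y) ≤ M * √(t (star y * y)) * √(t (star z * z))} := by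
        apply isClosed_le
        · exact htc.comp ((continuous_star.mul continuous_const).mul continuous_const)
        · exact continuous_const.mul hn2c
      intro z
      have : closure S ⊆ {z : A |
          t (star z * x * y) ≤ M * √(t (star y * y)) * √(t (star z * z))} :=
        hc.closure_subset_iff.mpr fun z hz => hest y hy z hz
      exact this (hS z)
    intro y z
    have hc : IsClosed {y : A |
        t (star z * x * y) ≤ M * √(t (star y * y)) * √(t (star z * z))} := by
      apply isClosed_le
      · exact htc.comp (continuous_const.mul continuous_id)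
      · exact (continuous_const.mul hn2c).mul continuous_const
    have : closure S ⊆ {y : A |
        t (star z * x * y) ≤ M * √(t (star y * y)) * √(t (star z * z))} :=
      hc.closure_subset_iff.mpr fun y hy => h1 y hy z
    exact this (hS y)
  have hsq : ∀ y : A, t (star y * (star x * x) * y) ≤ M ^ 2 * t (star y * y) := by
    intro y
    have h1 := hall y (x * y)
    have e : star (x * y) * x * y = star (x * y) * (x * y) := by rw [mul_assoc]
    have e2 : star y * (star x * x) * y = star (x * y) * (x * y) := by
      rw [star_mul]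
      simp only [mul_assoc]
    rw [e] at h1
    rw [e2]
    set a := t (star (x * y) * (x * y)) with ha
    set b := t (star y * y) with hb
    have ha0 : 0 ≤ a := ht.nonneg _
    have hb0 : 0 ≤ b := ht.nonneg _
    have h2 : √a * √a = a := Real.mul_self_sqrt ha0
    have h3 : √b * √b = b := Real.mul_self_sqrt hb0
    rcases (Real.sqrt_nonneg a).eq_or_lt with h4 | h4
    · have : a = 0 := by rw [← h2, ← h4, zero_mul]
      rw [this]
      positivity
    · have h5 : √a ≤ M * √b := by
        by_contra hcon
        push Not at hcon
        have h6 : M * √b * √a < √a * √a := mul_lt_mul_of_pos_right hcon h4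
        rw [h2] at h6
        linarith
      have h6 : √a * √a ≤ (M * √b) * (M * √b) :=
        mul_le_mul h5 h5 h4.le (mul_nonneg hM (Real.sqrt_nonneg b))
      rw [h2] at h6
      have e3 : (M * √b) * (M * √b) = M ^ 2 * (√b * √b) := by ring
      rw [e3, h3] at h6
      exact h6
  by_contra hcon
  push Not at hcon
  obtain ⟨M', hM1, hM2⟩ := exists_between hcon
  have hM'0 : 0 ≤ M' := hM.trans hM1.le
  set a : A := star x * x with ha
  have hasa : IsSelfAdjoint a := IsSelfAdjoint.star_mul_self x
  have ha0 : 0 ≤ a := star_mul_self_nonneg x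
  set f : ℝ → ℝ := fun s => max 0 (s - M' ^ 2) with hf
  have hfc : Continuous f := continuous_const.max (continuous_id.sub continuous_const)
  obtain ⟨y, hy⟩ : ∃ y : A, y = cfc f a := ⟨_, rfl⟩
  have hysa : IsSelfAdjoint y := by
    rw [hy]
    exact cfc_predicate f a
  have hy0 : y ≠ 0 := by
    intro h
    rw [hy] at h
    have h1 : cfc f a = cfc (0 : ℝ → ℝ) a := by
      rw [h, cfc_zero]
    have h2 := (cfc_eq_cfc_iff_eqOn (a := a) (f := f) (g := (0 : ℝ → ℝ)) (ha := hasa)
      (hf := hfc.continuousOn) (hg := continuousOn_const)).mp h1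
    have h3 : ∀ s ∈ spectrum ℝ a, s ≤ M' ^ 2 := by
      intro s hs
      have h4 := h2 hs
      change max 0 (s - M' ^ 2) = 0 at h4
      have h5 := le_max_right 0 (s - M' ^ 2)
      rw [h4] at h5
      linarith
    have h4 : a ≤ algebraMap ℝ A (M' ^ 2) := (le_algebraMap_iff_spectrum_le hasa).mpr h3
    have h5 : ‖a‖ ≤ M' ^ 2 := by
      rw [CStarAlgebra.norm_le_iff_le_algebraMap _ (sq_nonneg _) ha0]
      exact h4
    rw [ha, CStarRing.norm_star_mul_self] at h5
    nlinarith [norm_nonneg x]
  have hyay : M' ^ 2 * t (star y * y) ≤ t (star y * a * y) := by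
    rw [← ht.smul]
    apply ht.mono
    rw [hysa.star_eq, ← sub_nonneg]
    have h1 : y * a * y - (M' ^ 2) • (y * y) = cfc (fun s => f s * s * f s - M' ^ 2 * (f s * f s)) a := by
      rw [cfc_sub (fun s => f s * s * f s) (fun s => M' ^ 2 * (f s * f s)) a
        ((hfc.mul continuous_id).mul hfc).continuousOn
        (continuous_const.mul (hfc.mul hfc)).continuousOn]
      rw [cfc_mul (fun s => f s * s) f a (hfc.mul continuous_id).continuousOn hfc.continuousOn]
      rw [cfc_mul f (fun s => s) a hfc.continuousOn continuousOn_id]
      rw [cfc_const_mul (M' ^ 2) (fun s => f s * f s) a (hfc.mul hfc).continuousOn]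
      rw [cfc_mul f f a hfc.continuousOn hfc.continuousOn]
      rw [cfc_id' ℝ a hasa, ← hy]
    rw [h1]
    apply cfc_nonneg
    intro s _
    have h2 : f s * s * f s - M' ^ 2 * (f s * f s) = (f s * f s) * (s - M' ^ 2) := by ring
    rw [h2]
    rcases le_total (s - M' ^ 2) 0 with h3 | h3
    · have : f s = 0 := max_eq_left h3
      rw [this]
      simp
    · exact mul_nonneg (mul_self_nonneg _) h3
  have h1 := hsq y
  have h2 : 0 < t (star y * y) := by
    rcases (ht.nonneg y).eq_or_lt with h | h
    · exact absurd (hfaith y h.symm) hy0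
    · exact h
  have h3 : M ^ 2 < M' ^ 2 := by nlinarith
  nlinarith

end Pool.Agent.Helper79.FP
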