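import Pool.Agent.Helper44.FP.Stmts2
import Pool.Agent.Helper44.FP.Lib

/-! # Module FN: words -/

set_option autoImplicit false

namespace Pool.Agent.Helper79.FP

open Pool.Agent.Helper44.FP MeasureTheory

universe u

/-- letters -/
abbrev Ltr := ℕ × C(unitInterval, ℂ)

/-- alternating lists of centred letters -/
def Wd (L : List Ltr) : Prop :=
  L.IsChain (fun a b => a.1 ≠ b.1) ∧ ∀ a ∈ L, ∫ x, a.2 x = 0

/-- the adjoint word -/
noncomputable def sL (L : List Ltr) : List Ltr := (L.map (fun a => (a.1, star a.2))).reverse

theorem integral_star_zero {f : C(unitInterval, ℂ)} (h : ∫ x, f x = 0) :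
    ∫ x, (star f) x = 0 := by
  have h1 : (fun x => (star f) x) = fun x => (starRingEnd ℂ) (f x) := by
    funext x
    rfl
  rw [h1, integral_conj, h, map_zero]

theorem sL_wd {L : List Ltr} (h : Wd L) : Wd (sL L) := by
  constructor
  · unfold sL
    rw [List.isChain_reverse, List.isChain_map]
    exact h.1.imp fun a b hab => hab.symm
  · intro a ha
    unfold sL at ha
    rw [List.mem_reverse, List.mem_map] at ha
    obtain ⟨b, hb, rfl⟩ := ha
    exact integral_star_zero (h.2 b hb)

theorem sL_ne_nil {L : List Ltr} (h : L ≠ []) : sL L ≠ [] := by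
  unfold sL
  simpa using h

theorem sL_getLast {L : List Ltr} {a : Ltr} (h : a ∈ (sL L).getLast?) :
    ∃ b ∈ L.head?, a.1 = b.1 := by
  unfold sL at h
  rw [List.getLast?_reverse, List.head?_map] at h
  obtain ⟨b, hb, rfl⟩ := Option.mem_map.mp h
  exact ⟨b, hb, rfl⟩

theorem sL_head {L : List Ltr} {a : Ltr} (h : a ∈ (sL L).head?) :
    ∃ b ∈ L.getLast?, a.1 = b.1 := by
  unfold sL at h
  rw [List.head?_reverse, List.getLast?_map] at h
  obtain ⟨b, hb, rfl⟩ := Option.mem_map.mp h
  exact ⟨b, hb, rfl⟩

theorem Wd.append {L L' : List Ltr} (h : Wd L) (h' : Wd L')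
    (hc : ∀ a ∈ L.getLast?, ∀ b ∈ L'.head?, a.1 ≠ b.1) : Wd (L ++ L') := by
  constructor
  · rw [List.isChain_append]
    exact ⟨h.1, h'.1, hc⟩
  · intro a ha
    rcases List.mem_append.mp ha with ha | ha
    · exact h.2 a ha
    · exact h'.2 a ha

section

variable {D : Type u} [CStarAlgebra D] {τ : D →ₗ[ℂ] ℂ}
  (ι : ℕ → (C(unitInterval, ℂ) →⋆ₐ[ℂ] D))

/-- the product of the letters -/
noncomputable def pr (L : List Ltr) : D := (L.map (fun a => ι a.1 a.2)).prod

theorem pr_append (L L' : List Ltr) : pr ι (L ++ L') = pr ι L * pr ι L' := by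
  unfold pr
  rw [List.map_append, List.prod_append]

theorem pr_nil : pr ι [] = 1 := rfl

theorem pr_star (L : List Ltr) : star (pr ι L) = pr ι (sL L) := by
  induction L with
  | nil => simp [pr, sL]
  | cons a L ih =>
    have h1 : sL (a :: L) = sL L ++ [(a.1, star a.2)] := by
      simp [sL]
    rw [h1, pr_append, ← ih]
    have h2 : pr ι (a :: L) = ι a.1 a.2 * pr ι L := by
      simp [pr]
    have h3 : pr ι [(a.1, star a.2)] = star (ι a.1 a.2) := by
      rw [← map_star]
      simp [pr]
    rw [h2, star_mul, h3]

variable {ι}

theorem tau_word (hF : IsFreePower D τ ι) {L : List Ltr} (h : Wd L) (hne : L ≠ []) :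
    τ (pr ι L) = 0 := hF.free L hne h.1 h.2

variable (ι)

/-- `1` and words whose first letter is not in `S` -/
noncomputable def V0 (S : Set ℕ) : Submodule ℂ D :=
  Submodule.span ℂ {d | ∃ L : List Ltr, Wd L ∧ (∀ a ∈ L.head?, a.1 ∉ S) ∧ d = pr ι L}

/-- words whose first letter is in `S` -/
noncomputable def V1 (S : Set ℕ) : Submodule ℂ D :=
  Submodule.span ℂ {d | ∃ L : List Ltr, Wd L ∧ L ≠ [] ∧ (∀ a ∈ L.head?, a.1 ∈ S) ∧ d = pr ι L}

variable {ι}

theorem orth (hF : IsFreePower D τ ι) {S : Set ℕ} {v u : D} (hv : v ∈ V0 ι S) (hu : u ∈ V1 ι S) :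
    τ (star v * u) = 0 := by
  induction hv using Submodule.span_induction with
  | mem v hv =>
    obtain ⟨L, hL, hh, rfl⟩ := hv
    induction hu using Submodule.span_induction with
    | mem u hu =>
      obtain ⟨L', hL', hne, hh', rfl⟩ := hu
      rw [pr_star, ← pr_append]
      apply tau_word hF
      · apply (sL_wd hL).append hL'
        intro a ha b hb heq
        obtain ⟨c, hc, hac⟩ := sL_getLast ha
        apply hh c hc
        rw [← hac, heq]
        exact hh' b hb
      · simp [hne]
    | zero => rw [mul_zero, map_zero]
    | add x y _ _ hx hy => rw [mul_add, map_add, hx, hy, add_zero]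
    | smul c x _ hx => rw [mul_smul_comm, map_smul, hx, smul_zero]
  | zero => rw [star_zero, zero_mul, map_zero]
  | add x y _ _ hx hy => rw [star_add, add_mul, map_add, hx, hy, add_zero]
  | smul c x _ hx => rw [star_smul, smul_mul_assoc, map_smul, hx, smul_zero]

theorem mid (hF : IsFreePower D τ ι) {S : Set ℕ} {v v' c : D} (hv : v ∈ V0 ι S)
    (hv' : v' ∈ V0 ι S) (hc : c ∈ Submodule.span ℂ (wordSet ι S)) :
    τ (star v' * c * v) = 0 := by
  induction hv' using Submodule.span_induction with
  | mem v' hv' =>
    obtain ⟨L', hL', hh', rfl⟩ := hv'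
    induction hv using Submodule.span_induction with
    | mem v hv =>
      obtain ⟨L, hL, hh, rfl⟩ := hv
      induction hc using Submodule.span_induction with
      | mem c hc =>
        obtain ⟨C, hne, hch, hCS, rfl⟩ := hc
        have hC : Wd C := ⟨hch, fun a ha => (hCS a ha).2⟩
        have e : (C.map (fun a => ι a.1 a.2)).prod = pr ι C := rfl
        rw [e, pr_star, ← pr_append, ← pr_append]
        apply tau_word hF
        · apply Wd.append _ hL
          · intro a ha b hb heq
            rw [List.getLast?_append] at ha
            have hlast : C.getLast? ≠ none := by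
              rw [Ne, List.getLast?_eq_none_iff]; exact hne
            obtain ⟨d, hd⟩ := Option.ne_none_iff_exists'.mp hlast
            rw [hd, Option.some_or] at ha
            have had : d = a := by simpa using ha
            subst had
            apply hh b hb
            rw [← heq]
            exact (hCS d (List.mem_of_getLast? hd)).1
          · apply (sL_wd hL').append hC
            intro a ha b hb heq
            obtain ⟨d, hd, had⟩ := sL_getLast ha
            apply hh' d hd
            rw [← had, heq]
            exact (hCS b (List.mem_of_mem_head? hb)).1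
        · simp [hne]
      | zero => rw [mul_zero, zero_mul, map_zero]
      | add x y _ _ hx hy => rw [mul_add, add_mul, map_add, hx, hy, add_zero]
      | smul c x _ hx => rw [mul_smul_comm, smul_mul_assoc, map_smul, hx, smul_zero]
    | zero => rw [mul_zero, map_zero]
    | add x y _ _ hx hy => rw [mul_add, map_add, hx, hy, add_zero]
    | smul c x _ hx => rw [mul_smul_comm, map_smul, hx, smul_zero]
  | zero => rw [star_zero, zero_mul, zero_mul, map_zero]
  | add x y _ _ hx hy => rw [star_add, add_mul, add_mul, map_add, hx, hy, add_zero]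
  | smul c x _ hx =>
    rw [star_smul, smul_mul_assoc, smul_mul_assoc, map_smul, hx, smul_zero]

theorem shift_V1 {S : Set ℕ} {N : ℕ} (hN : N ∉ S) {e e' : C(unitInterval, ℂ)}
    (he : ∫ x, e x = 0) (he' : ∫ x, e' x = 0) {c u : D}
    (hc : c ∈ Submodule.span ℂ (wordSet ι S)) (hu : u ∈ V1 ι S) :
    ι N e * c * ι N e' * u ∈ V0 ι S := by
  induction hu using Submodule.span_induction with
  | mem u hu =>
    obtain ⟨L, hL, hne, hh, rfl⟩ := hu
    induction hc using Submodule.span_induction with
    | mem c hc =>
      obtain ⟨C, hCne, hch, hCS, rfl⟩ := hc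
      have hC : Wd C := ⟨hch, fun a ha => (hCS a ha).2⟩
      have e1 : (C.map (fun a => ι a.1 a.2)).prod = pr ι C := rfl
      have e2 : ι N e = pr ι [(N, e)] := by simp [pr]
      have e3 : ι N e' = pr ι [(N, e')] := by simp [pr]
      have w1 : Wd [(N, e)] := ⟨List.IsChain.singleton _, by simpa using he⟩
      have w2 : Wd [(N, e')] := ⟨List.IsChain.singleton _, by simpa using he'⟩
      rw [e1, e2, e3, mul_assoc, mul_assoc, ← pr_append, ← pr_append, ← pr_append]
      apply Submodule.subset_span
      refine ⟨_, ?_, ?_, rfl⟩
      · apply w1.append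
        · apply hC.append
          · apply w2.append hL
            intro a ha b hb heq
            have ha' : (N, e') = a := by simpa using ha
            rw [← ha'] at heq
            apply hN
            have h1 : N = b.1 := heq
            rw [h1]
            exact hh b hb
          · intro a ha b hb heq
            have hb' : (N, e') = b := by simpa using hb
            rw [← hb'] at heq
            apply hN
            have h1 : a.1 = N := heq
            rw [← h1]
            exact (hCS a (List.mem_of_getLast? ha)).1
        · intro a ha b hb heq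
          have ha' : (N, e) = a := by simpa using ha
          rw [← ha'] at heq
          have hb' : b ∈ C.head? := by
            cases C with
            | nil => exact absurd rfl hCne
            | cons x C => simpa using hb
          apply hN
          have h1 : N = b.1 := heq
          rw [h1]
          exact (hCS b (List.mem_of_mem_head? hb')).1
      · intro a ha
        have ha' : (N, e) = a := by simpa using ha
        rw [← ha']
        exact hN
    | zero => rw [mul_zero, zero_mul, zero_mul]; exact Submodule.zero_mem _
    | add x y _ _ hx hy => rw [mul_add, add_mul, add_mul]; exact Submodule.add_mem _ hx hy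
    | smul c x _ hx =>
      rw [mul_smul_comm, smul_mul_assoc, smul_mul_assoc]; exact Submodule.smul_mem _ _ hx
  | zero => rw [mul_zero]; exact Submodule.zero_mem _
  | add x y _ _ hx hy => rw [mul_add]; exact Submodule.add_mem _ hx hy
  | smul c x _ hx => rw [mul_smul_comm]; exact Submodule.smul_mem _ _ hx

end

end Pool.Agent.Helper79.FP
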