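import Pool.Agent.Helper44.FP.Stmts
import Pool.Agent.Helper44.FP.Lib

/-! # Module PART -/

set_option autoImplicit false

namespace Pool.Agent.Helper79.FP

open Pool.Agent.Helper44.FP

universe v

theorem PART_proof : ST_PART.{v} := by
  classical
  intro X _ _ G ω hω
  -- a common modulus of continuity
  have hr : ∃ r : ℝ, 0 < r ∧ ∀ f ∈ G, ∀ z x : X, dist z x < r → |f z - f x| ≤ ω := by
    induction G using Finset.induction_on with
    | empty => exact ⟨1, one_pos, fun f hf => absurd hf (Finset.notMem_empty f)⟩
    | insert g G hg ih =>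
      obtain ⟨r, hr, h⟩ := ih
      have huc : UniformContinuous g := CompactSpace.uniformContinuous_of_continuous g.continuous
      obtain ⟨s, hs, h'⟩ := Metric.uniformContinuous_iff.mp huc ω hω
      refine ⟨min r s, lt_min hr hs, ?_⟩
      intro f hf z x hzx
      rcases Finset.mem_insert.mp hf with rfl | hf
      · have := h' (lt_of_lt_of_le hzx (min_le_right _ _))
        rw [Real.dist_eq] at this
        exact this.le
      · exact h f hf z x (lt_of_lt_of_le hzx (min_le_left _ _))
  obtain ⟨r, hr, hG⟩ := hr
  obtain ⟨t, -, htf, htc⟩ := Metric.finite_approx_of_totallyBounded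
    (isCompact_univ (X := X)).totallyBounded (r / 2) (by positivity)
  obtain ⟨J, x, hx⟩ : ∃ (J : ℕ) (x : Fin J → X), Set.range x = t := by
    obtain ⟨J, e, he⟩ := htf.fin_embedding
    exact ⟨J, e, he⟩
  set p : Fin J → X → ℝ := fun j z => max 0 (r / 2 - dist z (x j)) with hp
  have hpc : ∀ j, Continuous (p j) := by
    intro j
    exact continuous_const.max (continuous_const.sub (continuous_id.dist continuous_const))
  have hp0 : ∀ j z, 0 ≤ p j z := fun j z => le_max_left _ _
  have hsum : ∀ z, 0 < ∑ j, p j z ^ 2 := by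
    intro z
    have hz := htc (Set.mem_univ z)
    obtain ⟨y, hy, hzy⟩ := Set.mem_iUnion₂.mp hz
    rw [← hx] at hy
    obtain ⟨j, rfl⟩ := hy
    have h1 : 0 < p j z := by
      have : dist z (x j) < r / 2 := hzy
      exact lt_max_of_lt_right (by linarith)
    exact lt_of_lt_of_le (pow_pos h1 2)
      (Finset.single_le_sum (f := fun j => p j z ^ 2) (fun i _ => sq_nonneg _)
        (Finset.mem_univ j))
  have hsq : ∀ z, 0 < √(∑ j, p j z ^ 2) := fun z => Real.sqrt_pos.mpr (hsum z)
  refine ⟨J, fun j => ⟨fun z => p j z / √(∑ i, p i z ^ 2), ?_⟩, x, ?_, ?_, ?_⟩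
  · apply (hpc j).div
    · exact Real.continuous_sqrt.comp (continuous_finsetSum _ fun i _ => (hpc i).pow 2)
    · exact fun z => (hsq z).ne'
  · intro j
    constructor
    · intro z
      exact div_nonneg (hp0 j z) (hsq z).le
    · intro z
      change p j z / √(∑ i, p i z ^ 2) ≤ 1
      rw [div_le_one (hsq z)]
      apply Real.le_sqrt_of_sq_le
      exact Finset.single_le_sum (f := fun j => p j z ^ 2) (fun i _ => sq_nonneg _)
        (Finset.mem_univ j)
  · ext z
    rw [ContinuousMap.sum_apply]
    change ∑ j, (p j z / √(∑ i, p i z ^ 2)) ^ 2 = 1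
    simp only [div_pow]
    rw [← Finset.sum_div, Real.sq_sqrt (hsum z).le, div_self (hsum z).ne']
  · intro j f hf z hz
    apply hG f hf
    have h1 : p j z ≠ 0 := by
      intro h
      apply hz
      change p j z / √(∑ i, p i z ^ 2) = 0
      rw [h, zero_div]
    by_contra hcon
    push Not at hcon
    apply h1
    exact max_eq_left (by linarith)

end Pool.Agent.Helper79.FP
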